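import Pool.Agent.R550.CR.Lin
import Pool.Agent.H633R2.GraphDefs

/-!
# The algorithm on adjacency matrices
-/

namespace Pool.Agent.R550.CRev

open Classical Pool.Agent.H633R2

/-- One step on matrices. -/
def vstep (n : ℕ) (s : List (List Bool) × List Bool) (a : ℕ) : List (List Bool) × List Bool :=
  ((List.range n).map fun x => (List.range n).map fun y =>
      xor (entry s.1 x y) (!decide (x = y) && (entry s.1 a x && entry s.1 a y)),
   (List.range n).map fun x => xor (s.2.getD x false) (entry s.1 a x))

/-- The normalised matrix. -/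
def nm (n : ℕ) (M : List (List Bool)) : List (List Bool) :=
  (List.range n).map fun x => (List.range n).map fun y =>
    !decide (x = y) && (entry M x y || entry M y x)

theorem entry_map (n : ℕ) (f : ℕ → ℕ → Bool) (x y : ℕ) :
    entry ((List.range n).map fun x => (List.range n).map fun y => f x y) x y =
      (decide (x < n) && (decide (y < n) && f x y)) := by
  unfold entry
  by_cases hx : x < n
  · by_cases hy : y < n
    · simp [List.getD_eq_getElem?_getD, hx, hy]
    · simp [List.getD_eq_getElem?_getD, hx, hy]
  · simp [List.getD_eq_getElem?_getD, hx]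

theorem getD_map (n : ℕ) (f : ℕ → Bool) (x : ℕ) :
    ((List.range n).map f).getD x false = (decide (x < n) && f x) := by
  by_cases hx : x < n
  · simp [List.getD_eq_getElem?_getD, hx]
  · simp [List.getD_eq_getElem?_getD, hx]

/-- The matrix and the list of flips describe the bicoloured graph. -/
def Rep {n : ℕ} (s : List (List Bool) × List Bool) (B : SimpleGraph (Fin n) × (Fin n → ℤˣ)) :
    Prop :=
  s.1 = ((List.range n).map fun x => (List.range n).map fun y =>
    decide (∃ (hx : x < n) (hy : y < n), B.1.Adj ⟨x, hx⟩ ⟨y, hy⟩)) ∧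
  s.2 = (List.range n).map fun x => decide (∃ (hx : x < n), B.2 ⟨x, hx⟩ = -1)

theorem map_range_congr {α : Type} {n : ℕ} {f g : ℕ → α} (h : ∀ x < n, f x = g x) :
    (List.range n).map f = (List.range n).map g := by
  refine List.map_congr_left fun x hx => h x (List.mem_range.1 hx)

theorem map_range_inj {α : Type} {n : ℕ} {f g : ℕ → α}
    (h : (List.range n).map f = (List.range n).map g) : ∀ x < n, f x = g x := by
  intro x hx
  have := List.map_inj_left.1 h x (List.mem_range.2 hx)
  exact this

theorem Rep.entry_eq {n : ℕ} {s : List (List Bool) × List Bool}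
    {B : SimpleGraph (Fin n) × (Fin n → ℤˣ)} (h : Rep s B) {x y : ℕ} (hx : x < n) (hy : y < n) :
    entry s.1 x y = decide (B.1.Adj ⟨x, hx⟩ ⟨y, hy⟩) := by
  rw [h.1, entry_map]
  simp [hx, hy]

theorem Rep.step {n : ℕ} {s : List (List Bool) × List Bool}
    {B : SimpleGraph (Fin n) × (Fin n → ℤˣ)} (h : Rep s B) (a : Fin n) :
    Rep (vstep n s a) (localInversion B a) := by
  refine ⟨map_range_congr fun x hx => map_range_congr fun y hy => ?_,
    map_range_congr fun x hx => ?_⟩
  · rw [h.entry_eq hx hy, h.entry_eq a.2 hx, h.entry_eq a.2 hy]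
    simp only [localInversion, localComplement, hx, hy, exists_true_left]
    by_cases hxy : x = y
    · subst hxy
      simp
    · have h3 : (⟨x, hx⟩ : Fin n) ≠ ⟨y, hy⟩ := fun hh => hxy (Fin.mk.inj hh)
      simp only [h3, ne_eq, not_false_eq_true, true_and]
      by_cases h1 : B.1.Adj ⟨x, hx⟩ ⟨y, hy⟩ <;> by_cases h2 : B.1.Adj a ⟨x, hx⟩ <;>
        by_cases h4 : B.1.Adj a ⟨y, hy⟩ <;> simp [h1, h2, h4, hxy, Xor]
  · rw [h.entry_eq a.2 hx, h.2, getD_map]
    simp only [localInversion, hx, exists_true_left, decide_true, Bool.true_and]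
    by_cases h2 : B.1.Adj a ⟨x, hx⟩
    · rcases Int.units_eq_one_or (B.2 ⟨x, hx⟩) with h3 | h3
      · simp [h2, h3]
      · simp [h2, h3]
    · simp [h2]

theorem Rep.step_out {n : ℕ} {s : List (List Bool) × List Bool}
    {B : SimpleGraph (Fin n) × (Fin n → ℤˣ)} (h : Rep s B) :
    Rep (vstep n s n) B := by
  have h0 : ∀ x, entry s.1 n x = false := by
    intro x
    rw [h.1, entry_map]
    simp
  refine ⟨map_range_congr fun x hx => map_range_congr fun y hy => ?_,
    map_range_congr fun x hx => ?_⟩
  · rw [h.entry_eq hx hy, h0 x]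
    simp [hx, hy]
  · rw [h0 x, h.2, getD_map]
    simp [hx]

theorem Rep.inj {n : ℕ} {s : List (List Bool) × List Bool}
    {B B' : SimpleGraph (Fin n) × (Fin n → ℤˣ)} (h : Rep s B) (h' : Rep s B') : B = B' := by
  refine Prod.ext ?_ ?_
  · ext x y
    have h1 := h.entry_eq x.2 y.2
    rw [h'.entry_eq x.2 y.2] at h1
    have h2 := decide_eq_decide.1 h1
    exact h2.symm
  · funext x
    have h1 := map_range_inj (h.2.symm.trans h'.2) x x.2
    have h2 := decide_eq_decide.1 h1
    simp only [Fin.is_lt, exists_true_left, Fin.eta] at h2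
    rcases Int.units_eq_one_or (B.2 x) with h3 | h3 <;>
      rcases Int.units_eq_one_or (B'.2 x) with h4 | h4
    · rw [h3, h4]
    · rw [h3] at h2
      exact absurd (h2.2 h4) (by decide)
    · rw [h4] at h2
      exact absurd (h2.1 h3) (by decide)
    · rw [h3, h4]

theorem rep_exists {n : ℕ} (B : SimpleGraph (Fin n) × (Fin n → ℤˣ)) : ∃ s, Rep s B :=
  ⟨(_, _), rfl, rfl⟩

theorem rep_start (M : List (List Bool)) :
    Rep (nm M.length M, (List.range M.length).map fun _ => false) (graphOf M, 1) := by
  refine ⟨map_range_congr fun x hx => map_range_congr fun y hy => ?_,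
    map_range_congr fun x hx => ?_⟩
  · simp [graphOf, hx, hy]
  · simp [hx]

theorem rep_end (M : List (List Bool)) :
    Rep (nm M.length M, (List.range M.length).map fun _ => true) (graphOf M, -1) := by
  refine ⟨(rep_start M).1, map_range_congr fun x hx => ?_⟩
  simp [hx]

/-- One iteration: the next letter is the last digit in base `n + 1`; the digit `n` does
nothing. -/
def it (n : ℕ) (t : ℕ × (List (List Bool) × List Bool)) : ℕ × (List (List Bool) × List Bool) :=
  (t.1 / (n + 1), vstep n t.2 (t.1 % (n + 1)))

theorem it_sound (n k : ℕ) : ∀ (i : ℕ) (s : List (List Bool) × List Bool)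
    (B : SimpleGraph (Fin n) × (Fin n → ℤˣ)), Rep s B →
    ∃ w : List (Fin n), w.length ≤ k ∧ Rep ((it n)^[k] (i, s)).2 (applyString B w) := by
  induction k with
  | zero =>
    intro i s B h
    exact ⟨[], le_rfl, h⟩
  | succ k ih =>
    intro i s B h
    rw [Function.iterate_succ_apply]
    by_cases hd : i % (n + 1) < n
    · have h1 := h.step ⟨i % (n + 1), hd⟩
      obtain ⟨w, hw, h2⟩ := ih (i / (n + 1)) _ _ h1
      exact ⟨⟨i % (n + 1), hd⟩ :: w, by simpa using hw, h2⟩
    · have hd' : i % (n + 1) = n := by
        have : i % (n + 1) < n + 1 := Nat.mod_lt i (Nat.succ_pos n)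
        omega
      have h1 := h.step_out
      obtain ⟨w, hw, h2⟩ := ih (i / (n + 1)) _ _ h1
      refine ⟨w, by omega, ?_⟩
      rw [it, hd']
      exact h2

theorem it_complete (n k : ℕ) : ∀ (w : List (Fin n)) (s : List (List Bool) × List Bool)
    (B : SimpleGraph (Fin n) × (Fin n → ℤˣ)), Rep s B → w.length ≤ k →
    ∃ i < (n + 1) ^ k, Rep ((it n)^[k] (i, s)).2 (applyString B w) := by
  induction k with
  | zero =>
    intro w s B h hw
    have : w = [] := List.length_eq_zero_iff.1 (by omega)
    subst this
    exact ⟨0, by simp, h⟩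
  | succ k ih =>
    intro w s B h hw
    cases w with
    | nil =>
      obtain ⟨i, hi, h2⟩ := ih [] _ _ h.step_out (by simp)
      refine ⟨n + (n + 1) * i, ?_, ?_⟩
      · rw [pow_succ]
        nlinarith
      · rw [Function.iterate_succ_apply, it]
        have e1 : (n + (n + 1) * i) / (n + 1) = i := by
          rw [Nat.add_mul_div_left _ _ (Nat.succ_pos n), Nat.div_eq_of_lt (Nat.lt_succ_self n),
            zero_add]
        have e2 : (n + (n + 1) * i) % (n + 1) = n := by
          rw [Nat.add_mul_mod_self_left, Nat.mod_eq_of_lt (Nat.lt_succ_self n)]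
        rw [e1, e2]
        exact h2
    | cons a w =>
      obtain ⟨i, hi, h2⟩ := ih w _ _ (h.step a) (by simpa using hw)
      have ha : a.1 < n + 1 := by have := a.2; omega
      refine ⟨a.1 + (n + 1) * i, ?_, ?_⟩
      · rw [pow_succ]
        nlinarith
      · rw [Function.iterate_succ_apply, it]
        have e1 : (a.1 + (n + 1) * i) / (n + 1) = i := by
          rw [Nat.add_mul_div_left _ _ (Nat.succ_pos n), Nat.div_eq_of_lt ha, zero_add]
        have e2 : (a.1 + (n + 1) * i) % (n + 1) = a.1 := by
          rw [Nat.add_mul_mod_self_left, Nat.mod_eq_of_lt ha]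
        rw [e1, e2]
        exact h2

/-- The algorithm: the graph, the parameter, its unary copy `u` and the padding `p`. -/
def alg (M : List (List Bool)) (k : ℕ) (u p : List Unit) : Bool :=
  decide (M.length ≤ k) && (List.range p.length).any fun i =>
    decide (((it M.length)^[u.length]
      (i, (nm M.length M, (List.range M.length).map fun _ => false))).2 =
        (nm M.length M, (List.range M.length).map fun _ => true))

theorem alg_spec (M : List (List Bool)) (k : ℕ) (p : List Unit)
    (hp : M.length ≤ k → (M.length + 1) ^ k ≤ p.length) :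
    alg M k (List.replicate k ()) p = true ↔ cr (graphOf M) ≤ k := by
  rw [cr_le_iff]
  constructor
  · intro h
    simp only [alg, Bool.and_eq_true, decide_eq_true_eq, List.any_eq_true, List.mem_range,
      List.length_replicate] at h
    obtain ⟨_, i, _, h2⟩ := h
    obtain ⟨w, hw, h3⟩ := it_sound M.length k i _ _ (rep_start M)
    rw [h2] at h3
    exact ⟨w, hw, h3.inj (rep_end M)⟩
  · rintro ⟨w, hw, h⟩
    have hn : M.length ≤ k := by
      have := card_le_length h
      simp only [Fintype.card_fin] at this
      omega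
    obtain ⟨i, hi, h3⟩ := it_complete M.length k w _ _ (rep_start M) hw
    rw [h] at h3
    simp only [alg, Bool.and_eq_true, decide_eq_true_eq, List.any_eq_true, List.mem_range,
      List.length_replicate]
    refine ⟨hn, i, hi.trans_le (hp hn), ?_⟩
    exact Prod.ext (h3.1.trans (rep_end M).1.symm) (h3.2.trans (rep_end M).2.symm)

end Pool.Agent.R550.CRev
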