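import Mathlib

/-!
# Local inversion of bicoloured graphs and the colour-reversal number
-/

namespace Pool.Agent.R550.CRev

open Classical

variable {V : Type}

/-- The local complement `G_a`: the adjacency of two distinct vertices `x`, `y` is toggled exactly
when both are neighbours of `a`. -/
def localComplement (G : SimpleGraph V) (a : V) : SimpleGraph V where
  Adj x y := x ≠ y ∧ Xor (G.Adj x y) (G.Adj a x ∧ G.Adj a y)
  symm := ⟨fun x y h => ⟨h.1.symm, by
    have h2 := h.2
    rw [G.adj_comm x y, and_comm (a := G.Adj a x)] at h2
    exact h2⟩⟩
  loopless := ⟨fun _ h => h.1 rfl⟩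

/-- The local inversion `B_a` of the bicoloured graph `B = (G, β)` at `a` (the two colours are the
units `1` and `-1` of `ℤ`): the graph becomes `G_a` and the neighbours of `a` in `G` change
colour. -/
noncomputable def localInversion (B : SimpleGraph V × (V → ℤˣ)) (a : V) :
    SimpleGraph V × (V → ℤˣ) :=
  (localComplement B.1 a, fun x => if B.1.Adj a x then -B.2 x else B.2 x)

/-- `B_w`: the local inversions at the letters of the string `w` are applied one after the other,
beginning with the first letter. -/
noncomputable def applyString (B : SimpleGraph V × (V → ℤˣ)) (w : List V) :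
    SimpleGraph V × (V → ℤˣ) :=
  w.foldl localInversion B

/-- The colour-reversal number `cr(G)`: the least `ℓ` such that for every bicoloration `β` some
string `w` with `|w| ≤ ℓ` satisfies `B_w = (G, -β)`; it is `∞` if there is no such `ℓ`. -/
noncomputable def cr (G : SimpleGraph V) : ℕ∞ :=
  sInf {l : ℕ∞ | ∃ m : ℕ, l = m ∧
    ∀ β : V → ℤˣ, ∃ w : List V, w.length ≤ m ∧ applyString (G, β) w = (G, -β)}

end Pool.Agent.R550.CRev
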