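import Pool.Agent.R550.CR.Defs

/-!
# The vectors of colour flips are orthonormal
-/

namespace Pool.Agent.R550.CRev

open Classical

variable {V : Type}

/-- indicator of a proposition in `ZMod 2` -/
noncomputable def ind (p : Prop) : ZMod 2 := if p then 1 else 0

theorem ind_xor (p q : Prop) : ind (Xor p q) = ind p + ind q := by
  unfold ind
  by_cases hp : p <;> by_cases hq : q <;> simp [hp, hq, Xor]
  decide

theorem ind_and (p q : Prop) : ind (p ∧ q) = ind p * ind q := by
  unfold ind
  by_cases hp : p <;> by_cases hq : q <;> simp [hp, hq]

theorem ind_sq (p : Prop) : ind p * ind p = ind p := by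
  unfold ind
  by_cases hp : p <;> simp [hp]

/-- `U G w x i = 1` iff `x` is a neighbour of the `i`-th letter when the letter is used. -/
noncomputable def U : (G : SimpleGraph V) → (w : List V) → V → Fin w.length → ZMod 2
  | _, [] => fun _ i => i.elim0
  | G, a :: w => fun x => Fin.cons (ind (G.Adj a x)) (U (localComplement G a) w x)

theorem dot_cons (G : SimpleGraph V) (a : V) (w : List V) (x y : V) :
    ∑ i, U G (a :: w) x i * U G (a :: w) y i =
      ind (G.Adj a x) * ind (G.Adj a y) +
        ∑ i, U (localComplement G a) w x i * U (localComplement G a) w y i := by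
  simp only [U]
  rw [show (∑ i : Fin (a :: w).length,
      (Fin.cons (ind (G.Adj a x)) (U (localComplement G a) w x) : Fin (w.length + 1) → ZMod 2) i *
      (Fin.cons (ind (G.Adj a y)) (U (localComplement G a) w y) : Fin (w.length + 1) → ZMod 2) i) =
      ∑ i : Fin (w.length + 1),
      (Fin.cons (ind (G.Adj a x)) (U (localComplement G a) w x) : Fin (w.length + 1) → ZMod 2) i *
      (Fin.cons (ind (G.Adj a y)) (U (localComplement G a) w y) : Fin (w.length + 1) → ZMod 2) i
      from rfl, Fin.sum_univ_succ]
  simp only [Fin.cons_zero, Fin.cons_succ]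

theorem adj_apply (w : List V) : ∀ (G : SimpleGraph V) (β : V → ℤˣ) (x y : V), x ≠ y →
    ind ((applyString (G, β) w).1.Adj x y) = ind (G.Adj x y) + ∑ i, U G w x i * U G w y i := by
  induction w with
  | nil =>
    intro G β x y _
    simp [applyString]
  | cons a w ih =>
    intro G β x y hxy
    rw [dot_cons]
    have h1 : applyString (G, β) (a :: w) = applyString (localComplement G a,
        fun x => if G.Adj a x then -β x else β x) w := rfl
    rw [h1, ih _ _ x y hxy]
    have h2 : ind ((localComplement G a).Adj x y) =
        ind (G.Adj x y) + ind (G.Adj a x) * ind (G.Adj a y) := by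
      rw [← ind_and, ← ind_xor]
      congr 1
      simp [localComplement, hxy]
    rw [h2]
    ring

theorem col_apply (w : List V) : ∀ (G : SimpleGraph V) (β : V → ℤˣ) (x : V),
    (applyString (G, β) w).2 x = if (∑ i, U G w x i * U G w x i) = 0 then β x else - β x := by
  induction w with
  | nil =>
    intro G β x
    simp [applyString]
  | cons a w ih =>
    intro G β x
    rw [dot_cons]
    have h1 : applyString (G, β) (a :: w) = applyString (localComplement G a,
        fun x => if G.Adj a x then -β x else β x) w := rfl
    rw [h1, ih _ _ x]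
    set S := ∑ i, U (localComplement G a) w x i * U (localComplement G a) w x i
    have hS : S = 0 ∨ S = 1 := by
      generalize S = s
      revert s
      decide
    by_cases h : G.Adj a x
    · rcases hS with hS | hS
      · simp [hS, h, ind]
      · have : (1 : ZMod 2) + 1 = 0 := by decide
        simp [hS, h, ind, this]
    · simp [h, ind]

/-- The key inequality: a string which reverses the colours has at least `|V|` letters. -/
theorem card_le_length [Fintype V] {G : SimpleGraph V} {β : V → ℤˣ} {w : List V}
    (h : applyString (G, β) w = (G, -β)) : Fintype.card V ≤ w.length := by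
  have hoff : ∀ x y, x ≠ y → ∑ i, U G w x i * U G w y i = 0 := by
    intro x y hxy
    have := adj_apply w G β x y hxy
    rw [h] at this
    simpa using this
  have hon : ∀ x, ∑ i, U G w x i * U G w x i = 1 := by
    intro x
    have h1 := col_apply w G β x
    rw [h] at h1
    generalize (∑ i, U G w x i * U G w x i) = S at h1
    have hS : S = 0 ∨ S = 1 := (by decide : ∀ s : ZMod 2, s = 0 ∨ s = 1) S
    rcases hS with hS | hS
    · rw [hS] at h1
      simp only [if_true, Pi.neg_apply] at h1
      exact absurd h1 (by
        intro hh
        rcases Int.units_eq_one_or (β x) with h2 | h2 <;> rw [h2] at hh <;> revert hh <;> decide)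
    · exact hS
  have hinj : LinearIndependent (ZMod 2) (U G w) := by
    rw [Fintype.linearIndependent_iff]
    intro g hg y
    have h1 : ∑ i, (∑ x, g x • U G w x) i * U G w y i = g y := by
      have h2 : ∀ i, (∑ x, g x • U G w x) i * U G w y i =
          ∑ x, g x * (U G w x i * U G w y i) := by
        intro i
        rw [Finset.sum_apply, Finset.sum_mul]
        refine Finset.sum_congr rfl fun x _ => ?_
        rw [Pi.smul_apply, smul_eq_mul, mul_assoc]
      rw [Finset.sum_congr rfl fun i _ => h2 i, Finset.sum_comm]
      rw [Finset.sum_eq_single y]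
      · rw [← Finset.mul_sum, hon, mul_one]
      · intro x _ hxy
        rw [← Finset.mul_sum, hoff x y hxy, mul_zero]
      · intro h
        exact absurd (Finset.mem_univ y) h
    rw [hg] at h1
    simpa using h1.symm
  have := hinj.fintype_card_le_finrank
  simpa using this

/-- Whether a string reverses the colours does not depend on the bicoloration. -/
theorem apply_iff (G : SimpleGraph V) (w : List V) (β β' : V → ℤˣ)
    (h : applyString (G, β) w = (G, -β)) : applyString (G, β') w = (G, -β') := by
  have h1 : ∀ (w : List V) (G : SimpleGraph V) (β β' : V → ℤˣ),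
      (applyString (G, β) w).1 = (applyString (G, β') w).1 := by
    intro w
    induction w with
    | nil => intro G β β'; rfl
    | cons a w ih =>
      intro G β β'
      exact ih (localComplement G a) _ _
  have hG : (applyString (G, β') w).1 = G := by
    rw [h1 w G β' β, h]
  have hc : (applyString (G, β') w).2 = -β' := by
    funext x
    rw [col_apply]
    have h2 := col_apply w G β x
    rw [h] at h2
    by_cases h0 : (∑ i, U G w x i * U G w x i) = 0
    · rw [if_pos h0] at h2
      simp only [Pi.neg_apply] at h2
      exact absurd h2 (by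
        intro hh
        rcases Int.units_eq_one_or (β x) with h2 | h2 <;> rw [h2] at hh <;> revert hh <;> decide)
    · rw [if_neg h0]
      rfl
  exact Prod.ext hG hc

/-- The general lower bound `|V| ≤ cr(G)`. -/
theorem card_le_cr [Fintype V] (G : SimpleGraph V) : (Fintype.card V : ℕ∞) ≤ cr G := by
  unfold cr
  refine le_sInf ?_
  rintro l ⟨m, rfl, hm⟩
  obtain ⟨w, hw, h⟩ := hm 1
  exact_mod_cast (card_le_length h).trans hw

theorem cr_le_iff (G : SimpleGraph V) (k : ℕ) :
    cr G ≤ k ↔ ∃ w : List V, w.length ≤ k ∧ applyString (G, (1 : V → ℤˣ)) w = (G, -1) := by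
  constructor
  · intro h
    by_contra hcon
    have h1 : ((k + 1 : ℕ) : ℕ∞) ≤ cr G := by
      unfold cr
      refine le_sInf ?_
      rintro l ⟨m, rfl, hm⟩
      obtain ⟨w, hw, h⟩ := hm 1
      have : k + 1 ≤ m := by
        by_contra hlt
        exact hcon ⟨w, by omega, h⟩
      exact_mod_cast this
    have h2 := h1.trans h
    have h3 : k + 1 ≤ k := by exact_mod_cast h2
    omega
  · rintro ⟨w, hw, h⟩
    exact sInf_le ⟨k, rfl, fun β => ⟨w, hw, apply_iff G w _ β h⟩⟩

end Pool.Agent.R550.CRev
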