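import Pool.Agent.R550.CR.Code
import Pool.Agent.H633R2.FptPad

/-!
# The algorithm runs in polynomial time in the size of the padded input
-/

namespace Pool.Agent.R550.CRev

open Pool.Agent.NPC Pool.Agent.H633R2

variable {α β : Type} [TEnc α] [TEnc β]

theorem iterU {s : α → β} {F : α → β → β} {n : α → ℕ} (hn : UPoly n) (hs : NPC.Poly s)
    (hF : NPC.Poly (fun p : α × β => F p.1 p.2)) (q : Polynomial ℕ)
    (hq : ∀ a, ∀ k ≤ n a, sz ((F a)^[k] (s a)) ≤ q.eval (sz a)) :
    NPC.Poly (fun a => (F a)^[n a] (s a)) := by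
  have h : NPC.Poly (fun a => (F a)^[(List.replicate (n a) ()).length] (s a)) :=
    NPC.Poly.iterLen (l := fun a => List.replicate (n a) ()) hn hs hF q
      (fun a k hk => hq a k (by simpa using hk))
  exact h.congr fun a => by rw [List.length_replicate]

theorem poly_entry {M : α → List (List Bool)} {i j : α → ℕ} (hM : NPC.Poly M) (hi : NPC.Poly i)
    (hj : NPC.Poly j) : NPC.Poly (fun a => entry (M a) (i a) (j a)) :=
  NPC.Poly.getD (NPC.Poly.getD hM hi (NPC.Poly.const [])) hj (NPC.Poly.const false)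

theorem poly_matrix {n : α → ℕ} {f : α → ℕ → ℕ → Bool} (hn : UPoly n)
    (hf : NPC.Poly (fun p : α × ℕ × ℕ => f p.1 p.2.1 p.2.2)) :
    NPC.Poly (fun a => (List.range (n a)).map fun x => (List.range (n a)).map fun y => f a x y) := by
  refine NPC.Poly.map (F := fun a x => (List.range (n a)).map fun y => f a x y) hn.range ?_
  refine NPC.Poly.map (α := α × ℕ) (F := fun q y => f q.1 q.2 y)
    ((hn.comp (NPC.Poly.fst NPC.Poly.id)).range) ?_
  exact hf.comp (NPC.Poly.pair (NPC.Poly.fst (NPC.Poly.fst NPC.Poly.id)) (NPC.Poly.pair (NPC.Poly.snd (NPC.Poly.fst NPC.Poly.id))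
    (NPC.Poly.snd NPC.Poly.id)))

theorem poly_vstep {n : α → ℕ} {s : α → List (List Bool) × List Bool} {v : α → ℕ}
    (hn : UPoly n) (hs : NPC.Poly s) (hv : NPC.Poly v) :
    NPC.Poly (fun a => vstep (n a) (s a) (v a)) := by
  unfold vstep
  refine NPC.Poly.pair ?_ ?_
  · refine poly_matrix (f := fun a x y => xor (entry (s a).1 x y)
      (!decide (x = y) && (entry (s a).1 (v a) x && entry (s a).1 (v a) y))) hn ?_
    have hs1 : NPC.Poly (fun p : α × ℕ × ℕ => (s p.1).1) := NPC.Poly.fst (hs.comp (NPC.Poly.fst NPC.Poly.id))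
    have hv1 : NPC.Poly (fun p : α × ℕ × ℕ => v p.1) := hv.comp (NPC.Poly.fst NPC.Poly.id)
    have hx : NPC.Poly (fun p : α × ℕ × ℕ => p.2.1) := NPC.Poly.fst (NPC.Poly.snd NPC.Poly.id)
    have hy : NPC.Poly (fun p : α × ℕ × ℕ => p.2.2) := NPC.Poly.snd (NPC.Poly.snd NPC.Poly.id)
    exact NPC.Poly.xor (poly_entry hs1 hx hy) (NPC.Poly.and (NPC.Poly.not (NPC.Poly.decide_eq hx hy))
      (NPC.Poly.and (poly_entry hs1 hv1 hx) (poly_entry hs1 hv1 hy)))
  · refine NPC.Poly.map (F := fun a x => xor ((s a).2.getD x false) (entry (s a).1 (v a) x))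
      hn.range ?_
    have hs0 : NPC.Poly (fun p : α × ℕ => s p.1) := hs.comp (NPC.Poly.fst NPC.Poly.id)
    exact NPC.Poly.xor (NPC.Poly.getD (NPC.Poly.snd hs0) (NPC.Poly.snd NPC.Poly.id) (NPC.Poly.const false))
      (poly_entry (NPC.Poly.fst hs0) (hv.comp (NPC.Poly.fst NPC.Poly.id)) (NPC.Poly.snd NPC.Poly.id))

theorem poly_nm {n : α → ℕ} {M : α → List (List Bool)} (hn : UPoly n) (hM : NPC.Poly M) :
    NPC.Poly (fun a => nm (n a) (M a)) := by
  unfold nm
  refine poly_matrix (f := fun a x y => !decide (x = y) && (entry (M a) x y || entry (M a) y x))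
    hn ?_
  have hM1 : NPC.Poly (fun p : α × ℕ × ℕ => M p.1) := hM.comp (NPC.Poly.fst NPC.Poly.id)
  have hx : NPC.Poly (fun p : α × ℕ × ℕ => p.2.1) := NPC.Poly.fst (NPC.Poly.snd NPC.Poly.id)
  have hy : NPC.Poly (fun p : α × ℕ × ℕ => p.2.2) := NPC.Poly.snd (NPC.Poly.snd NPC.Poly.id)
  exact NPC.Poly.and (NPC.Poly.not (NPC.Poly.decide_eq hx hy)) (NPC.Poly.or (poly_entry hM1 hx hy)
    (poly_entry hM1 hy hx))

/-- Matrices of the right shape are small. -/
theorem sz_matrix (n : ℕ) (f : ℕ → ℕ → Bool) :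
    sz ((List.range n).map fun x => (List.range n).map fun y => f x y) ≤ n * (4 * n + 2) + 1 := by
  have := sz_le_length_mul ((List.range n).map fun x => (List.range n).map fun y => f x y)
    (4 * n + 1) (by
      intro a ha
      obtain ⟨x, _, rfl⟩ := List.mem_map.1 ha
      refine (sz_listBool_le _).trans ?_
      simp)
  simpa using this

theorem sz_row (n : ℕ) (f : ℕ → Bool) : sz ((List.range n).map f) ≤ 4 * n + 1 := by
  refine (sz_listBool_le _).trans ?_
  simp

theorem it_form (n : ℕ) (M : List (List Bool)) (b : Bool) (i k : ℕ) :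
    ∃ j ≤ i, ∃ (f : ℕ → ℕ → Bool) (g : ℕ → Bool),
      (it n)^[k] (i, (nm n M, (List.range n).map fun _ => b)) =
        (j, ((List.range n).map fun x => (List.range n).map fun y => f x y,
          (List.range n).map g)) := by
  induction k with
  | zero => exact ⟨i, le_rfl, _, _, rfl⟩
  | succ k ih =>
    obtain ⟨j, hj, f, g, h⟩ := ih
    rw [Function.iterate_succ_apply', h]
    exact ⟨j / (n + 1), (Nat.div_le_self _ _).trans hj, _, _, rfl⟩

theorem poly_alg : NPC.Poly (fun y : (List (List Bool) × ℕ) × List Unit × List Unit =>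
    alg y.1.1 y.1.2 y.2.1 y.2.2) := by
  have hM : NPC.Poly (fun y : (List (List Bool) × ℕ) × List Unit × List Unit => y.1.1) :=
    NPC.Poly.fst (NPC.Poly.fst NPC.Poly.id)
  have hk : NPC.Poly (fun y : (List (List Bool) × ℕ) × List Unit × List Unit => y.1.2) :=
    NPC.Poly.snd (NPC.Poly.fst NPC.Poly.id)
  have hp : NPC.Poly (fun y : (List (List Bool) × ℕ) × List Unit × List Unit => y.2.2) :=
    NPC.Poly.snd (NPC.Poly.snd NPC.Poly.id)
  unfold alg
  refine NPC.Poly.and (NPC.Poly.decide_le (NPC.Poly.length hM) hk) ?_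
  refine NPC.Poly.any (p := fun (y : (List (List Bool) × ℕ) × List Unit × List Unit) i =>
    decide (((it y.1.1.length)^[y.2.1.length]
      (i, (nm y.1.1.length y.1.1, (List.range y.1.1.length).map fun _ => false))).2 =
        (nm y.1.1.length y.1.1, (List.range y.1.1.length).map fun _ => true)))
    (NPC.Poly.range_length hp) ?_
  have hM' : NPC.Poly (fun z : ((List (List Bool) × ℕ) × List Unit × List Unit) × ℕ =>
    z.1.1.1) := hM.comp (NPC.Poly.fst NPC.Poly.id)
  have hn' : UPoly (fun z : ((List (List Bool) × ℕ) × List Unit × List Unit) × ℕ =>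
    z.1.1.1.length) := UPoly.length hM'
  have hu' : UPoly (fun z : ((List (List Bool) × ℕ) × List Unit × List Unit) × ℕ =>
    z.1.2.1.length) := UPoly.length (NPC.Poly.fst (NPC.Poly.snd (NPC.Poly.fst NPC.Poly.id)))
  have hmat : ∀ b : Bool, NPC.Poly (fun z : ((List (List Bool) × ℕ) × List Unit × List Unit) × ℕ =>
      ((nm z.1.1.1.length z.1.1.1, (List.range z.1.1.1.length).map fun _ => b) :
        List (List Bool) × List Bool)) := by
    intro b
    exact NPC.Poly.pair (poly_nm hn' hM') (NPC.Poly.map (F := fun _ _ => b) hn'.range (NPC.Poly.const b))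
  refine NPC.Poly.decide_eq (NPC.Poly.snd ?_) (hmat true)
  obtain ⟨r, hr⟩ := (NPC.Poly.snd (NPC.Poly.id : NPC.Poly (fun z :
    ((List (List Bool) × ℕ) × List Unit × List Unit) × ℕ => z))).sz_le
  refine iterU (s := fun z : ((List (List Bool) × ℕ) × List Unit × List Unit) × ℕ =>
      (z.2, ((nm z.1.1.1.length z.1.1.1, (List.range z.1.1.1.length).map fun _ => false) :
        List (List Bool) × List Bool)))
    (F := fun z => it z.1.1.1.length) hu' (NPC.Poly.pair (NPC.Poly.snd NPC.Poly.id) (hmat false)) ?_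
    (Polynomial.C 2 * Polynomial.X + Polynomial.X * (Polynomial.C 4 * Polynomial.X +
      Polynomial.C 2) + Polynomial.C 1 + (Polynomial.C 4 * Polynomial.X + Polynomial.C 1) +
      Polynomial.C 2) ?_
  · unfold it
    have hm2 : UPoly (fun w : (((List (List Bool) × ℕ) × List Unit × List Unit) × ℕ) ×
      ℕ × (List (List Bool) × List Bool) => w.1.1.1.1.length) := hn'.comp (NPC.Poly.fst NPC.Poly.id)
    have hi2 : NPC.Poly (fun w : (((List (List Bool) × ℕ) × List Unit × List Unit) × ℕ) ×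
      ℕ × (List (List Bool) × List Bool) => w.2.1) := NPC.Poly.fst (NPC.Poly.snd NPC.Poly.id)
    have hs2 : NPC.Poly (fun w : (((List (List Bool) × ℕ) × List Unit × List Unit) × ℕ) ×
      ℕ × (List (List Bool) × List Bool) => w.2.2) := NPC.Poly.snd (NPC.Poly.snd NPC.Poly.id)
    have hn1 := NPC.Poly.succ hm2.toPoly
    exact NPC.Poly.pair (NPC.Poly.div hi2 hn1) (poly_vstep hm2 hs2 (NPC.Poly.mod hi2 hn1))
  · rintro z k _
    obtain ⟨j, hj, f, g, h⟩ := it_form z.1.1.1.length z.1.1.1 false z.2 k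
    rw [h]
    have h1 := sz_matrix z.1.1.1.length f
    have h2 := sz_row z.1.1.1.length g
    have h3 := sz_nat_mono_le hj
    have h4 : sz z.2 ≤ sz z := by
      obtain ⟨a, b⟩ := z
      change sz b ≤ sz (a, b)
      rw [sz_pair]
      omega
    have h5 : z.1.1.1.length ≤ sz z := by
      obtain ⟨⟨⟨a, b⟩, c⟩, d⟩ := z
      have := length_lt_sz a
      change a.length ≤ sz (((a, b), c), d)
      simp only [sz_pair]
      omega
    rw [sz_pair, sz_pair]
    simp only [Polynomial.eval_add, Polynomial.eval_mul, Polynomial.eval_C, Polynomial.eval_X]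
    have h6 : z.1.1.1.length * (4 * z.1.1.1.length + 2) ≤ sz z * (4 * sz z + 2) :=
      Nat.mul_le_mul h5 (by omega)
    omega

/-- The bound on the number of strings. -/
theorem pow_le (n k : ℕ) (h : n ≤ k) : (n + 1) ^ k ≤ 2 ^ ((k + 1) * k) := by
  rw [pow_mul]
  exact Nat.pow_le_pow_left ((by omega : n + 1 ≤ k + 1).trans Nat.lt_two_pow_self.le) k

theorem isFpt_cr : IsFpt (fun x : List (List Bool) × ℕ => x.2)
    (fun x => cr (graphOf x.1) ≤ (x.2 : ℕ∞)) := by
  refine ⟨fun x => alg x.1 x.2 (List.replicate x.2 ())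
    (List.replicate (2 ^ ((x.2 + 1) * x.2)) ()), ?_, fun x => ?_⟩
  · have hk : NPC.Poly (fun x : List (List Bool) × ℕ => x.2) := NPC.Poly.snd NPC.Poly.id
    have hU : H633.UF (fun k => 2 ^ ((k + 1) * k)) :=
      H633.UF.two_pow (H633.UF.mul (H633.UF.add H633.UF.id (H633.UF.const 1)) H633.UF.id)
    exact FptTime.poly_comp poly_alg
      ((FptTime.of_poly (κ := fun x : List (List Bool) × ℕ => x.2) NPC.Poly.id).pair
        ((H633.UF.pad H633.UF.id hk).pair (H633.UF.pad hU hk)))
  · refine alg_spec x.1 x.2 _ fun h => ?_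
    rw [List.length_replicate]
    exact pow_le _ _ h

end Pool.Agent.R550.CRev
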